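import Pool.Agent.H29.RS.Targets
import Pool.Agent.H89.Cubic.Div

/-!
# The right side over a small set (FMB)
-/

set_option autoImplicit false

open Complex MeasureTheory Set Filter Topology ProbabilityTheory

namespace Pool.Agent.H34.RS

open Pool.Agent.H29.RS Pool.Agent.H29.RT Pool.Agent.H25.DP Pool.Agent.H25.DL

/-- the frequency `log k` -/
noncomputable def ex (k : ℕ) (u : ℝ) : ℂ := cexp (((-(u * Real.log k) : ℝ) : ℂ) * I)

theorem ex_mul (k l : ℕ) (hk : 1 ≤ k) (hl : 1 ≤ l) (t : ℝ) :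
    ex k t * ex l t = ex (k * l) t := by
  unfold ex
  rw [← Complex.exp_add]
  congr 1
  have h1 : (k : ℝ) ≠ 0 := by
    have : k ≠ 0 := by omega
    exact_mod_cast this
  have h2 : (l : ℝ) ≠ 0 := by
    have : l ≠ 0 := by omega
    exact_mod_cast this
  rw [Nat.cast_mul, Real.log_mul h1 h2]
  push_cast
  ring

theorem ex_add (k : ℕ) (u y : ℝ) : ex k (u + y) = ex k u * ex k y := by
  unfold ex
  rw [← Complex.exp_add]
  congr 1
  push_cast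
  ring

theorem continuous_ex (n : ℕ) : Continuous (ex n) := by
  unfold ex
  fun_prop

theorem norm_ex (n : ℕ) (u : ℝ) : ‖ex n u‖ = 1 := by
  unfold ex
  rw [Complex.norm_exp_ofReal_mul_I]

/-- Dirichlet polynomial -/
noncomputable def PP (N : ℕ) (b : ℕ → ℂ) (u : ℝ) : ℂ := ∑ k ∈ Finset.Icc 1 N, b k * ex k u

theorem continuous_PP (N : ℕ) (b : ℕ → ℂ) : Continuous (PP N b) := by
  unfold PP
  exact continuous_finsetSum _ fun n _ => continuous_const.mul (continuous_ex n)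

theorem norm_PP_le (N : ℕ) (b : ℕ → ℂ) (u : ℝ) : ‖PP N b u‖ ≤ ∑ k ∈ Finset.Icc 1 N, ‖b k‖ := by
  unfold PP
  refine (norm_sum_le _ _).trans (le_of_eq (Finset.sum_congr rfl fun k _ => ?_))
  rw [norm_mul, norm_ex, mul_one]

/-- mean value theorem without weights -/
theorem mean2 (h1 : T_MVT) : ∃ C : ℝ, 0 < C ∧ ∀ (N : ℕ) (b : ℕ → ℂ) (x V : ℝ), 1 ≤ N → 0 ≤ V →
    ∫ t in x..(x + V), ‖PP N b t‖ ^ 2 ≤
      (V + C * N * Real.log (N + 1)) * ∑ k ∈ Finset.Icc 1 N, ‖b k‖ ^ 2 := by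
  obtain ⟨C, hC, h⟩ := h1
  refine ⟨C, hC, ?_⟩
  intro N b x V hN hV
  have h2 := h N b (fun _ _ => 1) (fun _ _ => 0) x (x + V) 0 hN (by linarith) le_rfl
    (fun k t _ => hasDerivAt_const t 1) (fun k => continuousOn_const) (fun k t _ => by simp)
    (fun k t _ => by simp)
  have h3 : (fun t : ℝ => ‖∑ k ∈ Finset.Icc 1 N, b k * (1 : ℂ) *
      cexp (((-(t * Real.log k) : ℝ) : ℂ) * I)‖ ^ 2) = fun t => ‖PP N b t‖ ^ 2 := by
    funext t
    unfold PP ex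
    congr 2
    refine Finset.sum_congr rfl fun k _ => ?_
    rw [mul_one]
  have h4 : ∀ k : ℕ, ‖b k‖ ^ 2 * ∫ _t in x..(x + V), ‖(1 : ℂ)‖ ^ 2 = ‖b k‖ ^ 2 * V := by
    intro k
    rw [norm_one, one_pow, intervalIntegral.integral_const, smul_eq_mul, mul_one]
    congr 1
    ring
  simp only [h3, h4] at h2
  have h5 := (abs_le.1 h2).2
  rw [← Finset.sum_mul] at h5
  linarith

/-- fourth moment of a Dirichlet polynomial -/
theorem fourth (h1 : T_MVT) (e : ℝ) (he : 0 < e) : ∃ C : ℝ, 0 < C ∧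
    ∀ (N : ℕ) (b : ℕ → ℂ) (x V : ℝ), 1 ≤ N → 0 ≤ V →
      ∫ t in x..(x + V), ‖PP N b t‖ ^ 4 ≤
        C * (V + (N : ℝ) ^ 2) * (N : ℝ) ^ e * (∑ k ∈ Finset.Icc 1 N, ‖b k‖ ^ 2) ^ 2 := by
  obtain ⟨C₀, hC₀, hM⟩ := mean2 h1
  have he4 : 0 < e / 4 := by positivity
  obtain ⟨C₁, hC₁, hdiv⟩ := Pool.Agent.H89.Cubic.div_bound (e / 4) he4
  set C₂ : ℝ := 2 ^ (e / 4) / (e / 4) with hC₂
  have hC₂0 : 0 < C₂ := by positivity
  refine ⟨(1 + C₀ * C₂) * C₁, by positivity, ?_⟩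
  intro N b x V hN hV
  have hN0 : (0 : ℝ) < N := by exact_mod_cast hN
  have hN1 : (1 : ℝ) ≤ N := by exact_mod_cast hN
  set P : Finset (ℕ × ℕ) := Finset.Icc 1 N ×ˢ Finset.Icc 1 N with hP
  set a : ℕ → ℂ := fun n => ∑ z ∈ P.filter (fun z => z.1 * z.2 = n), b z.1 * b z.2 with ha
  have hmap : ∀ z ∈ P, z.1 * z.2 ∈ Finset.Icc 1 (N ^ 2) := by
    intro z hz
    rw [hP, Finset.mem_product, Finset.mem_Icc, Finset.mem_Icc] at hz
    rw [Finset.mem_Icc]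
    refine ⟨Nat.mul_pos hz.1.1 hz.2.1, ?_⟩
    rw [pow_two]
    exact Nat.mul_le_mul hz.1.2 hz.2.2
  have hsq : ∀ t : ℝ, PP N b t ^ 2 = PP (N ^ 2) a t := by
    intro t
    unfold PP
    rw [pow_two, Finset.sum_mul_sum, ← Finset.sum_product',
      ← Finset.sum_fiberwise_of_maps_to hmap]
    refine Finset.sum_congr rfl fun n _ => ?_
    rw [ha]
    simp only
    rw [Finset.sum_mul]
    refine Finset.sum_congr rfl fun z hz => ?_
    rw [Finset.mem_filter, hP, Finset.mem_product, Finset.mem_Icc, Finset.mem_Icc] at hz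
    rw [← hz.2, ← ex_mul z.1 z.2 hz.1.1.1 hz.1.2.1]
    ring
  have hcard : ∀ n ∈ Finset.Icc 1 (N ^ 2),
      ((P.filter fun z : ℕ × ℕ => z.1 * z.2 = n).card : ℝ) ≤ C₁ * ((N : ℝ) ^ 2) ^ (e / 4) := by
    intro n hn
    rw [Finset.mem_Icc] at hn
    have h2 : (P.filter fun z : ℕ × ℕ => z.1 * z.2 = n).card ≤ n.divisors.card := by
      refine Finset.card_le_card_of_injOn (fun z => z.1) ?_ ?_
      · intro z hz
        rw [Finset.mem_coe, Finset.mem_filter] at hz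
        rw [Finset.mem_coe, Nat.mem_divisors]
        exact ⟨⟨z.2, hz.2.symm⟩, by omega⟩
      · intro z hz w hw hzw
        rw [Finset.mem_coe, Finset.mem_filter, hP, Finset.mem_product, Finset.mem_Icc,
          Finset.mem_Icc] at hz hw
        simp only at hzw
        have hz1 := hz.1.1.1
        refine Prod.ext hzw ?_
        have h3 : z.1 * z.2 = z.1 * w.2 := by rw [hz.2, hzw, hw.2]
        exact Nat.eq_of_mul_eq_mul_left hz1 h3
    have h3 : ((P.filter fun z : ℕ × ℕ => z.1 * z.2 = n).card : ℝ) ≤ (n.divisors.card : ℝ) := by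
      exact_mod_cast h2
    refine (h3.trans (hdiv n hn.1)).trans (mul_le_mul_of_nonneg_left ?_ hC₁.le)
    apply Real.rpow_le_rpow (Nat.cast_nonneg _) _ he4.le
    exact_mod_cast hn.2
  have ha2 : ∑ n ∈ Finset.Icc 1 (N ^ 2), ‖a n‖ ^ 2 ≤
      C₁ * ((N : ℝ) ^ 2) ^ (e / 4) * (∑ k ∈ Finset.Icc 1 N, ‖b k‖ ^ 2) ^ 2 := by
    have h2 : ∀ n ∈ Finset.Icc 1 (N ^ 2), ‖a n‖ ^ 2 ≤ C₁ * ((N : ℝ) ^ 2) ^ (e / 4) *
        ∑ z ∈ P.filter (fun z => z.1 * z.2 = n), ‖b z.1‖ ^ 2 * ‖b z.2‖ ^ 2 := by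
      intro n hn
      calc ‖a n‖ ^ 2 ≤ (∑ z ∈ P.filter (fun z : ℕ × ℕ => z.1 * z.2 = n), ‖b z.1 * b z.2‖) ^ 2 :=
            pow_le_pow_left₀ (norm_nonneg _) (norm_sum_le _ _) 2
        _ ≤ (P.filter fun z : ℕ × ℕ => z.1 * z.2 = n).card *
            ∑ z ∈ P.filter (fun z : ℕ × ℕ => z.1 * z.2 = n), ‖b z.1 * b z.2‖ ^ 2 :=
            sq_sum_le_card_mul_sum_sq
        _ ≤ (C₁ * ((N : ℝ) ^ 2) ^ (e / 4)) *
            ∑ z ∈ P.filter (fun z : ℕ × ℕ => z.1 * z.2 = n), ‖b z.1 * b z.2‖ ^ 2 :=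
            mul_le_mul_of_nonneg_right (hcard n hn) (Finset.sum_nonneg fun _ _ => by positivity)
        _ = _ := by
            congr 1
            refine Finset.sum_congr rfl fun z _ => ?_
            rw [norm_mul, mul_pow]
    refine (Finset.sum_le_sum h2).trans (le_of_eq ?_)
    rw [← Finset.mul_sum, Finset.sum_fiberwise_of_maps_to hmap, hP, Finset.sum_product,
      pow_two (∑ k ∈ Finset.Icc 1 N, ‖b k‖ ^ 2), Finset.sum_mul_sum]
  have h2 := hM (N ^ 2) a x V (Nat.one_le_pow _ _ hN) hV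
  have h3 : ∀ t : ℝ, ‖PP N b t‖ ^ 4 = ‖PP (N ^ 2) a t‖ ^ 2 := by
    intro t
    rw [← hsq t, norm_pow, ← pow_mul]
  simp only [h3]
  refine h2.trans ?_
  have hlog : Real.log (((N ^ 2 : ℕ) : ℝ) + 1) ≤ C₂ * ((N : ℝ) ^ 2) ^ (e / 4) := by
    push_cast
    have h4 := Real.log_le_rpow_div (x := (N : ℝ) ^ 2 + 1) (by positivity) he4
    refine h4.trans ?_
    rw [hC₂, div_mul_eq_mul_div, ← Real.mul_rpow (by norm_num) (by positivity)]
    apply div_le_div_of_nonneg_right _ he4.le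
    apply Real.rpow_le_rpow (by positivity) _ he4.le
    have : 1 ≤ (N : ℝ) ^ 2 := one_le_pow₀ hN1
    linarith
  have hS0 : 0 ≤ ∑ n ∈ Finset.Icc 1 (N ^ 2), ‖a n‖ ^ 2 :=
    Finset.sum_nonneg fun _ _ => by positivity
  have hone : 1 ≤ ((N : ℝ) ^ 2) ^ (e / 4) := Real.one_le_rpow (one_le_pow₀ hN1) he4.le
  have hfac : V + C₀ * ((N ^ 2 : ℕ) : ℝ) * Real.log (((N ^ 2 : ℕ) : ℝ) + 1) ≤
      (1 + C₀ * C₂) * (V + (N : ℝ) ^ 2) * ((N : ℝ) ^ 2) ^ (e / 4) := by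
    have h5 : C₀ * ((N ^ 2 : ℕ) : ℝ) * Real.log (((N ^ 2 : ℕ) : ℝ) + 1) ≤
        C₀ * ((N : ℝ) ^ 2) * (C₂ * ((N : ℝ) ^ 2) ^ (e / 4)) := by
      have h6 : ((N ^ 2 : ℕ) : ℝ) = (N : ℝ) ^ 2 := by push_cast; rfl
      rw [h6] at hlog ⊢
      exact mul_le_mul_of_nonneg_left hlog (by positivity)
    have h7 : V ≤ V * ((N : ℝ) ^ 2) ^ (e / 4) := le_mul_of_one_le_right hV hone
    have h8 : 0 ≤ (N : ℝ) ^ 2 * ((N : ℝ) ^ 2) ^ (e / 4) := by positivity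
    have h9 : 0 ≤ C₀ * C₂ * (V * ((N : ℝ) ^ 2) ^ (e / 4)) := by positivity
    calc V + C₀ * ((N ^ 2 : ℕ) : ℝ) * Real.log (((N ^ 2 : ℕ) : ℝ) + 1)
        ≤ V * ((N : ℝ) ^ 2) ^ (e / 4) + C₀ * ((N : ℝ) ^ 2) * (C₂ * ((N : ℝ) ^ 2) ^ (e / 4)) := by
          linarith
      _ ≤ V * ((N : ℝ) ^ 2) ^ (e / 4) + C₀ * ((N : ℝ) ^ 2) * (C₂ * ((N : ℝ) ^ 2) ^ (e / 4)) +
          ((N : ℝ) ^ 2 * ((N : ℝ) ^ 2) ^ (e / 4) + C₀ * C₂ * (V * ((N : ℝ) ^ 2) ^ (e / 4))) := by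
          linarith
      _ = (1 + C₀ * C₂) * (V + (N : ℝ) ^ 2) * ((N : ℝ) ^ 2) ^ (e / 4) := by ring
  have hpow : ((N : ℝ) ^ 2) ^ (e / 4) * ((N : ℝ) ^ 2) ^ (e / 4) = (N : ℝ) ^ e := by
    rw [← Real.rpow_add (by positivity), ← Real.rpow_natCast (N : ℝ) 2, ← Real.rpow_mul hN0.le]
    congr 1
    push_cast
    ring
  calc (V + C₀ * ((N ^ 2 : ℕ) : ℝ) * Real.log (((N ^ 2 : ℕ) : ℝ) + 1)) *
        ∑ n ∈ Finset.Icc 1 (N ^ 2), ‖a n‖ ^ 2
      ≤ ((1 + C₀ * C₂) * (V + (N : ℝ) ^ 2) * ((N : ℝ) ^ 2) ^ (e / 4)) *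
        ∑ n ∈ Finset.Icc 1 (N ^ 2), ‖a n‖ ^ 2 := mul_le_mul_of_nonneg_right hfac hS0
    _ ≤ ((1 + C₀ * C₂) * (V + (N : ℝ) ^ 2) * ((N : ℝ) ^ 2) ^ (e / 4)) *
        (C₁ * ((N : ℝ) ^ 2) ^ (e / 4) * (∑ k ∈ Finset.Icc 1 N, ‖b k‖ ^ 2) ^ 2) :=
        mul_le_mul_of_nonneg_left ha2 (by positivity)
    _ = (1 + C₀ * C₂) * C₁ * (V + (N : ℝ) ^ 2) * (((N : ℝ) ^ 2) ^ (e / 4) *
        ((N : ℝ) ^ 2) ^ (e / 4)) * (∑ k ∈ Finset.Icc 1 N, ‖b k‖ ^ 2) ^ 2 := by ring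
    _ = _ := by rw [hpow]

/-! ### the Gaussian weight -/

/-- the Gaussian probability measure with characteristic function `exp (-(β ^ 2 * v ^ 2 / 4))` -/
noncomputable def gm (β : ℝ) : Measure ℝ := gaussianReal 0 (Real.toNNReal (β ^ 2 / 2))

instance (β : ℝ) : IsProbabilityMeasure (gm β) := by
  unfold gm
  infer_instance

theorem gauss_ft (β v : ℝ) :
    ∫ y, cexp (((v * y : ℝ) : ℂ) * I) ∂(gm β) = ((Real.exp (-(β ^ 2 * v ^ 2 / 4)) : ℝ) : ℂ) := by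
  have h1 : charFun (gm β) v = cexp ((v : ℂ) * ((0 : ℝ) : ℂ) * I -
      ((Real.toNNReal (β ^ 2 / 2) : ℝ) : ℂ) * (v : ℂ) ^ 2 / 2) := charFun_gaussianReal v
  rw [charFun_apply_real] at h1
  have h2 : ∀ y : ℝ, cexp (((v * y : ℝ) : ℂ) * I) = cexp ((v : ℂ) * (y : ℂ) * I) := by
    intro y
    push_cast
    rfl
  simp only [h2]
  rw [h1, Real.coe_toNNReal _ (by positivity), Complex.ofReal_exp]
  congr 1
  push_cast
  ring

theorem int_bdd {γ : Measure ℝ} [IsFiniteMeasure γ] {F : ℝ → ℂ} (hF : Continuous F) {S : ℝ}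
    (h : ∀ y, ‖F y‖ ≤ S) : Integrable F γ :=
  Integrable.of_bound hF.aestronglyMeasurable S (Filter.Eventually.of_forall h)

theorem int_bddR {γ : Measure ℝ} [IsFiniteMeasure γ] {F : ℝ → ℝ} (hF : Continuous F) {S : ℝ}
    (h : ∀ y, |F y| ≤ S) : Integrable F γ :=
  Integrable.of_bound hF.aestronglyMeasurable S (Filter.Eventually.of_forall h)

theorem sq_int_le {γ : Measure ℝ} [IsProbabilityMeasure γ] {F : ℝ → ℝ} (hF : Integrable F γ)
    (hF2 : Integrable (fun y => F y ^ 2) γ) : (∫ y, F y ∂γ) ^ 2 ≤ ∫ y, F y ^ 2 ∂γ := by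
  set m := ∫ y, F y ∂γ with hm
  have h0 : 0 ≤ ∫ y, (F y - m) ^ 2 ∂γ := integral_nonneg fun y => sq_nonneg _
  have h1 : ∫ y, (F y - m) ^ 2 ∂γ = ∫ y, ((F y ^ 2 - 2 * m * F y) + m ^ 2) ∂γ := by
    refine integral_congr_ae (Filter.Eventually.of_forall fun y => ?_)
    show (F y - m) ^ 2 = (F y ^ 2 - 2 * m * F y) + m ^ 2
    ring
  have h2 : ∫ y, ((F y ^ 2 - 2 * m * F y) + m ^ 2) ∂γ =
      (∫ y, F y ^ 2 ∂γ - 2 * m * m) + m ^ 2 := by
    have hi2 : Integrable (fun y => 2 * m * F y) γ := hF.const_mul _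
    have hi3 : Integrable (fun y => F y ^ 2 - 2 * m * F y) γ := hF2.sub hi2
    rw [integral_add hi3 (integrable_const _), integral_sub hF2 hi2, integral_const_mul,
      integral_const, probReal_univ, one_smul]
  rw [h1, h2] at h0
  linarith

/-- the right side as a Dirichlet polynomial with weights -/
theorem BR_eq (hG : T_GRS) (ι : Type) [Fintype ι] (f : ι → Fac) (D : ℝ) (hf : ID f) (hD : 0 < D)
    (K : ℝ) (β T d B η ξ u : ℝ) (N : ℕ) (hN : K * T ^ D < N + 1)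
    (hK : ∀ z ∈ TU f D T, (∀ l, 1 ≤ z l) ∧ (nn f z : ℝ) ≤ K * T ^ D) :
    BR f β D T d B η ξ u = ∑ k ∈ Finset.Icc 1 N, bt f D T k * ex k u *
      ((Real.exp (-(β ^ 2 * ((d * Real.log u + d + B + η / u - ξ) - Real.log k) ^ 2 / 4)) : ℝ) :
        ℂ) := by
  classical
  obtain ⟨-, -, -, g4, -⟩ := hG ι f D hf hD
  unfold BR
  have hmap : ∀ z ∈ TU f D T, nn f z ∈ Finset.Icc 1 N := by
    intro z hz
    obtain ⟨h1, h2⟩ := hK z hz
    rw [Finset.mem_Icc]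
    constructor
    · exact Nat.one_le_iff_ne_zero.2 (Finset.prod_ne_zero_iff.2 fun l _ =>
        pow_ne_zero _ (Nat.one_le_iff_ne_zero.1 (h1 l)))
    · have h3 : ((nn f z : ℕ) : ℝ) < ((N + 1 : ℕ) : ℝ) := by
        push_cast
        exact lt_of_le_of_lt h2 hN
      have h4 : nn f z < N + 1 := by exact_mod_cast h3
      omega
  rw [← Finset.sum_fiberwise_of_maps_to hmap]
  refine Finset.sum_congr rfl fun k hk => ?_
  unfold bt
  rw [Finset.sum_mul, Finset.sum_mul]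
  refine Finset.sum_congr ?_ ?_
  · ext z
    simp only [Finset.mem_filter]
  intro z hz
  rw [Finset.mem_filter] at hz
  obtain ⟨hz1, hz2⟩ := hz
  rw [g4 z (hK z hz1).1, hz2]
  have h6 : d * Real.log u + d + B + η / u - Real.log (k : ℝ) - ξ =
      (d * Real.log u + d + B + η / u - ξ) - Real.log (k : ℝ) := by ring
  rw [h6]
  rfl

/-- a Dirichlet polynomial with Gaussian weights is an average of translates -/
theorem BR_int (β c u : ℝ) (N : ℕ) (b : ℕ → ℂ) :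
    ∑ k ∈ Finset.Icc 1 N, b k * ex k u *
      ((Real.exp (-(β ^ 2 * (c - Real.log k) ^ 2 / 4)) : ℝ) : ℂ) =
      ∫ y, cexp (((c * y : ℝ) : ℂ) * I) * PP N b (u + y) ∂(gm β) := by
  have h1 : ∀ y : ℝ, cexp (((c * y : ℝ) : ℂ) * I) * PP N b (u + y) =
      ∑ k ∈ Finset.Icc 1 N, b k * ex k u * cexp ((((c - Real.log k) * y : ℝ) : ℂ) * I) := by
    intro y
    unfold PP
    rw [Finset.mul_sum]
    refine Finset.sum_congr rfl fun k _ => ?_
    rw [ex_add]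
    have h2 : cexp ((((c - Real.log k) * y : ℝ) : ℂ) * I) =
        cexp (((c * y : ℝ) : ℂ) * I) * ex k y := by
      unfold ex
      rw [← Complex.exp_add]
      congr 1
      push_cast
      ring
    rw [h2]
    ring
  simp only [h1]
  rw [integral_finsetSum]
  · refine Finset.sum_congr rfl fun k _ => ?_
    rw [integral_const_mul, gauss_ft]
  · intro k _
    refine Integrable.const_mul (int_bdd (by fun_prop) (S := 1) fun y => ?_) _
    rw [Complex.norm_exp_ofReal_mul_I]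

theorem PP_pow_bdd (N : ℕ) (b : ℕ → ℂ) (u : ℝ) (n : ℕ) :
    |‖PP N b u‖ ^ n| ≤ (∑ k ∈ Finset.Icc 1 N, ‖b k‖) ^ n := by
  rw [abs_of_nonneg (by positivity)]
  exact pow_le_pow_left₀ (norm_nonneg _) (norm_PP_le N b u) n

/-- fourth power of the average -/
theorem avg_pow (β c u : ℝ) (N : ℕ) (b : ℕ → ℂ) :
    ‖∫ y, cexp (((c * y : ℝ) : ℂ) * I) * PP N b (u + y) ∂(gm β)‖ ^ 4 ≤
      ∫ y, ‖PP N b (u + y)‖ ^ 4 ∂(gm β) := by
  have hc : ∀ n : ℕ, Continuous fun y : ℝ => ‖PP N b (u + y)‖ ^ n := fun n =>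
    (((continuous_PP N b).comp (by fun_prop : Continuous fun y : ℝ => u + y)).norm).pow n
  have hi : ∀ n : ℕ, Integrable (fun y : ℝ => ‖PP N b (u + y)‖ ^ n) (gm β) := fun n =>
    int_bddR (hc n) fun y => PP_pow_bdd N b (u + y) n
  have h1 : ‖∫ y, cexp (((c * y : ℝ) : ℂ) * I) * PP N b (u + y) ∂(gm β)‖ ≤
      ∫ y, ‖PP N b (u + y)‖ ∂(gm β) := by
    refine (norm_integral_le_integral_norm _).trans (le_of_eq ?_)
    refine integral_congr_ae (Filter.Eventually.of_forall fun y => ?_)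
    show ‖cexp (((c * y : ℝ) : ℂ) * I) * PP N b (u + y)‖ = ‖PP N b (u + y)‖
    rw [norm_mul, Complex.norm_exp_ofReal_mul_I, one_mul]
  have hi1 : Integrable (fun y : ℝ => ‖PP N b (u + y)‖) (gm β) := by
    have := hi 1
    simpa only [pow_one] using this
  have h2 := sq_int_le hi1 (hi 2)
  have h3 := sq_int_le (hi 2) (by
    have : (fun y : ℝ => (‖PP N b (u + y)‖ ^ 2) ^ 2) = fun y => ‖PP N b (u + y)‖ ^ 4 := by
      funext y
      rw [← pow_mul]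
    rw [this]
    exact hi 4)
  have h4 : ∫ y, (‖PP N b (u + y)‖ ^ 2) ^ 2 ∂(gm β) = ∫ y, ‖PP N b (u + y)‖ ^ 4 ∂(gm β) := by
    refine integral_congr_ae (Filter.Eventually.of_forall fun y => ?_)
    show (‖PP N b (u + y)‖ ^ 2) ^ 2 = ‖PP N b (u + y)‖ ^ 4
    rw [← pow_mul]
  rw [h4] at h3
  have h0 : 0 ≤ ∫ y, ‖PP N b (u + y)‖ ∂(gm β) := integral_nonneg fun y => norm_nonneg _
  calc ‖∫ y, cexp (((c * y : ℝ) : ℂ) * I) * PP N b (u + y) ∂(gm β)‖ ^ 4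
      ≤ (∫ y, ‖PP N b (u + y)‖ ∂(gm β)) ^ 4 := pow_le_pow_left₀ (norm_nonneg _) h1 4
    _ = ((∫ y, ‖PP N b (u + y)‖ ∂(gm β)) ^ 2) ^ 2 := by rw [← pow_mul]
    _ ≤ (∫ y, ‖PP N b (u + y)‖ ^ 2 ∂(gm β)) ^ 2 := pow_le_pow_left₀ (sq_nonneg _) h2 2
    _ ≤ _ := h3

/-- the average of the fourth powers over an interval -/
theorem avg_int (β H V Q : ℝ) (hV : 0 ≤ V) (N : ℕ) (b : ℕ → ℂ)
    (hQ : ∀ x : ℝ, ∫ t in x..(x + V), ‖PP N b t‖ ^ 4 ≤ Q) :
    IntegrableOn (fun u => ∫ y, ‖PP N b (u + y)‖ ^ 4 ∂(gm β)) (Icc H (H + V)) ∧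
    ∫ u in Icc H (H + V), ∫ y, ‖PP N b (u + y)‖ ^ 4 ∂(gm β) ≤ Q := by
  have hc : Continuous fun p : ℝ × ℝ => ‖PP N b (p.1 + p.2)‖ ^ 4 :=
    (((continuous_PP N b).comp (by fun_prop : Continuous fun p : ℝ × ℝ => p.1 + p.2)).norm).pow 4
  have : IsFiniteMeasure (volume.restrict (Icc H (H + V))) :=
    ⟨by rw [Measure.restrict_apply_univ, Real.volume_Icc]; exact ENNReal.ofReal_lt_top⟩
  have hint : Integrable (fun p : ℝ × ℝ => ‖PP N b (p.1 + p.2)‖ ^ 4)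
      ((volume.restrict (Icc H (H + V))).prod (gm β)) :=
    Integrable.of_bound hc.aestronglyMeasurable ((∑ k ∈ Finset.Icc 1 N, ‖b k‖) ^ 4)
      (Filter.Eventually.of_forall fun p => PP_pow_bdd N b (p.1 + p.2) 4)
  refine ⟨hint.integral_prod_left, ?_⟩
  rw [integral_integral_swap hint]
  have h1 : ∀ y : ℝ, ∫ u in Icc H (H + V), ‖PP N b (u + y)‖ ^ 4 ≤ Q := by
    intro y
    rw [integral_Icc_eq_integral_Ioc, ← intervalIntegral.integral_of_le (by linarith)]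
    rw [intervalIntegral.integral_comp_add_right (fun t => ‖PP N b t‖ ^ 4) y]
    have h2 := hQ (H + y)
    have h3 : H + y + V = H + V + y := by ring
    rw [h3] at h2
    exact h2
  calc ∫ y, (∫ u in Icc H (H + V), ‖PP N b (u + y)‖ ^ 4) ∂(gm β)
      ≤ ∫ _y, Q ∂(gm β) := integral_mono hint.integral_prod_right (integrable_const _) h1
    _ = Q := by rw [integral_const, probReal_univ, one_smul]

/-- (FMB) the right side over a small set. -/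
theorem pf_FMB (h : T_GRS) (h1 : T_MVT) : T_FMB := by
  intro ι _ f D e hf hD he
  obtain ⟨-, -, ⟨K, hK, g3⟩, -, g5, -⟩ := h ι f D hf hD
  set e₁ : ℝ := 2 * e / (3 * D) with he₁
  have he₁0 : 0 < e₁ := by positivity
  obtain ⟨C₂, hC₂, hF⟩ := fourth h1 e₁ he₁0
  obtain ⟨C₃, hC₃, g5⟩ := g5 e₁ he₁0
  set A : ℝ := C₂ * C₃ ^ 2 * (K + 1) ^ 2 * ((K + 1) ^ e₁) ^ 3 with hA
  have hA0 : 0 < A := by positivity
  refine ⟨2 * Real.sqrt A, by positivity, ?_⟩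
  intro β d B η hβ T hT ξ H V hTH hV E hE hEs
  have hT0 : 0 < T := by linarith
  have hTD : 1 ≤ T ^ D := Real.one_le_rpow hT hD.le
  set N : ℕ := ⌊K * T ^ D⌋₊ + 1 with hN
  have hN1 : 1 ≤ N := by omega
  have hN0 : (0 : ℝ) < N := by exact_mod_cast hN1
  have hNlt : K * T ^ D < N + 1 := by
    have h2 := Nat.lt_floor_add_one (K * T ^ D)
    rw [hN]
    push_cast
    linarith
  have hNle : (N : ℝ) ≤ (K + 1) * T ^ D := by
    have h2 : ((⌊K * T ^ D⌋₊ : ℕ) : ℝ) ≤ K * T ^ D := Nat.floor_le (by positivity)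
    rw [hN]
    push_cast
    linarith
  set b : ℕ → ℂ := bt f D T with hb
  set Q : ℝ := A * (V + T ^ (2 * D)) * (T ^ e) ^ 2 with hQ
  have hQ0 : 0 < Q := by positivity
  have hQ4 : ∀ x : ℝ, ∫ t in x..(x + V), ‖PP N b t‖ ^ 4 ≤ Q := by
    intro x
    refine (hF N b x V hN1 (by linarith)).trans ?_
    have h2 : ∑ k ∈ Finset.Icc 1 N, ‖b k‖ ^ 2 ≤ C₃ * (N : ℝ) ^ e₁ := (g5 N hN1).2 T hT
    have h3 : 0 ≤ ∑ k ∈ Finset.Icc 1 N, ‖b k‖ ^ 2 := Finset.sum_nonneg fun _ _ => by positivity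
    have h4 : (N : ℝ) ^ e₁ ≤ (K + 1) ^ e₁ * T ^ (D * e₁) := by
      rw [Real.rpow_mul hT0.le, ← Real.mul_rpow (by positivity) (by positivity)]
      exact Real.rpow_le_rpow hN0.le hNle he₁0.le
    have h5 : V + (N : ℝ) ^ 2 ≤ (K + 1) ^ 2 * (V + T ^ (2 * D)) := by
      have h6 : (N : ℝ) ^ 2 ≤ (K + 1) ^ 2 * T ^ (2 * D) := by
        calc (N : ℝ) ^ 2 ≤ ((K + 1) * T ^ D) ^ 2 := pow_le_pow_left₀ hN0.le hNle 2
          _ = (K + 1) ^ 2 * T ^ (2 * D) := by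
            rw [mul_pow, ← Real.rpow_natCast (T ^ D) 2, ← Real.rpow_mul hT0.le]
            congr 2
            push_cast
            ring
      have h7 : V ≤ (K + 1) ^ 2 * V := by
        apply le_mul_of_one_le_left (by linarith)
        exact one_le_pow₀ (by linarith)
      linarith
    have h9 : (T ^ (D * e₁)) ^ 3 = (T ^ e) ^ 2 := by
      rw [← Real.rpow_natCast (T ^ (D * e₁)) 3, ← Real.rpow_natCast (T ^ e) 2,
        ← Real.rpow_mul hT0.le, ← Real.rpow_mul hT0.le]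
      congr 1
      rw [he₁]
      push_cast
      field_simp
    calc C₂ * (V + (N : ℝ) ^ 2) * (N : ℝ) ^ e₁ * (∑ k ∈ Finset.Icc 1 N, ‖b k‖ ^ 2) ^ 2
        ≤ C₂ * (V + (N : ℝ) ^ 2) * (N : ℝ) ^ e₁ * (C₃ * (N : ℝ) ^ e₁) ^ 2 :=
          mul_le_mul_of_nonneg_left (pow_le_pow_left₀ h3 h2 2) (by positivity)
      _ = C₂ * C₃ ^ 2 * (V + (N : ℝ) ^ 2) * ((N : ℝ) ^ e₁) ^ 3 := by ring
      _ ≤ C₂ * C₃ ^ 2 * ((K + 1) ^ 2 * (V + T ^ (2 * D))) *
          ((K + 1) ^ e₁ * T ^ (D * e₁)) ^ 3 := by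
          apply mul_le_mul
          · exact mul_le_mul_of_nonneg_left h5 (by positivity)
          · exact pow_le_pow_left₀ (by positivity) h4 3
          · positivity
          · positivity
      _ = C₂ * C₃ ^ 2 * (K + 1) ^ 2 * ((K + 1) ^ e₁) ^ 3 * (V + T ^ (2 * D)) *
          (T ^ (D * e₁)) ^ 3 := by ring
      _ = Q := by rw [h9, hQ, hA]
  obtain ⟨hint, hΦ⟩ := avg_int β H V Q (by linarith) N b hQ4
  have hBR : ∀ u : ℝ, ‖BR f β D T d B η ξ u‖ ^ 4 ≤ ∫ y, ‖PP N b (u + y)‖ ^ 4 ∂(gm β) := by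
    intro u
    rw [BR_eq h ι f D hf hD K β T d B η ξ u N hNlt (g3 T hT), BR_int]
    exact avg_pow β _ u N b
  have hfinE : volume E ≠ ⊤ :=
    ne_top_of_le_ne_top (by simp) (measure_mono hEs)
  have hsE : Real.sqrt (volume.real E) ^ 2 = volume.real E := Real.sq_sqrt measureReal_nonneg
  have hsQ : Real.sqrt Q ^ 2 = Q := Real.sq_sqrt hQ0.le
  have hsQ0 : 0 < Real.sqrt Q := Real.sqrt_pos.2 hQ0
  have hfinal : ∫ u in E, ‖BR f β D T d B η ξ u‖ ^ 2 ≤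
      2 * (Real.sqrt Q * Real.sqrt (volume.real E)) := by
    rcases (measureReal_nonneg (μ := volume) (s := E)).eq_or_lt with h0 | h0
    · have h2 : volume E = 0 := by
        rcases (ENNReal.toReal_eq_zero_iff _).1 h0.symm with h3 | h3
        · exact h3
        · exact absurd h3 hfinE
      rw [setIntegral_measure_zero _ h2]
      positivity
    · have hse0 : 0 < Real.sqrt (volume.real E) := Real.sqrt_pos.2 h0
      set lm : ℝ := Real.sqrt Q / Real.sqrt (volume.real E) with hlm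
      have hlm0 : 0 < lm := by positivity
      have hIc : IntegrableOn (fun _ : ℝ => lm) E := integrableOn_const hfinE
      have hIΦ : IntegrableOn (fun u => lm⁻¹ * ∫ y, ‖PP N b (u + y)‖ ^ 4 ∂(gm β)) E :=
        (hint.mono_set hEs).const_mul _
      have h8 : ∫ u in E, ‖BR f β D T d B η ξ u‖ ^ 2 ≤
          ∫ u in E, (lm + lm⁻¹ * ∫ y, ‖PP N b (u + y)‖ ^ 4 ∂(gm β)) := by
        refine integral_mono_of_nonneg (Filter.Eventually.of_forall fun u => by positivity)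
          (hIc.add hIΦ) (Filter.Eventually.of_forall fun u => ?_)
        show ‖BR f β D T d B η ξ u‖ ^ 2 ≤ lm + lm⁻¹ * ∫ y, ‖PP N b (u + y)‖ ^ 4 ∂(gm β)
        set x : ℝ := ‖BR f β D T d B η ξ u‖ with hx
        have h9 : 0 ≤ lm⁻¹ * (lm - x ^ 2) ^ 2 := by positivity
        have h10 : lm⁻¹ * (lm - x ^ 2) ^ 2 = lm - 2 * x ^ 2 + lm⁻¹ * x ^ 4 := by
          field_simp
          ring
        have h11 : lm⁻¹ * x ^ 4 ≤ lm⁻¹ * ∫ y, ‖PP N b (u + y)‖ ^ 4 ∂(gm β) :=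
          mul_le_mul_of_nonneg_left (hBR u) (by positivity)
        have h12 : 0 ≤ x ^ 2 := sq_nonneg x
        linarith
      refine h8.trans ?_
      rw [integral_add hIc hIΦ, integral_const_mul, setIntegral_const, smul_eq_mul]
      have h13 : ∫ u in E, ∫ y, ‖PP N b (u + y)‖ ^ 4 ∂(gm β) ≤ Q := by
        refine le_trans (setIntegral_mono_set hint ?_ hEs.eventuallyLE) hΦ
        exact Filter.Eventually.of_forall fun u => integral_nonneg fun y => by positivity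
      have h14 : volume.real E * lm = Real.sqrt Q * Real.sqrt (volume.real E) := by
        rw [hlm, ← hsE]
        rw [Real.sqrt_sq hse0.le]
        field_simp
      have h15 : lm⁻¹ * Q = Real.sqrt Q * Real.sqrt (volume.real E) := by
        rw [hlm]
        nth_rewrite 2 [← hsQ]
        field_simp
      have h16 : lm⁻¹ * ∫ u in E, ∫ y, ‖PP N b (u + y)‖ ^ 4 ∂(gm β) ≤ lm⁻¹ * Q :=
        mul_le_mul_of_nonneg_left h13 (by positivity)
      rw [h14]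
      linarith
  refine hfinal.trans (le_of_eq ?_)
  have hsqQ : Real.sqrt Q = Real.sqrt A * Real.sqrt (V + T ^ (2 * D)) * T ^ e := by
    rw [hQ, Real.sqrt_mul (by positivity), Real.sqrt_mul hA0.le,
      Real.sqrt_sq (by positivity)]
  rw [hsqQ, ← Real.sqrt_eq_rpow, ← Real.sqrt_eq_rpow]
  ring

end Pool.Agent.H34.RS
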